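import Pool.Agent.W_90188c_h48.MainD

/-!
# Rigid curve singularities and degenerations of their hyperplane sections

`P = ℂ[[X_1, …, X_n]]`, `R = P/I` a reduced curve singularity of embedding dimension `n`, `f` a regular
element of order one, `A = P/(I + (f))`.  If `A` is a degeneration of a finite-dimensional algebra `B`
which is not isomorphic to `A`, and `dim Der(B) + dim socle(A) ≥ dim A`, then `T¹` of `R` is nonzero.
-/

set_option autoImplicit false

namespace Pool.Agent.Results.MP_90188c_ag.Degenerations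

open Pool.Agent.W_MP_90188c_ag Pool.Agent.W_90188c_h48

theorem result (n : ℕ) (I : Ideal (MvPowerSeries (Fin n) ℂ))
    (hI : I ≤ (Ideal.span (Set.range (MvPowerSeries.X : Fin n → MvPowerSeries (Fin n) ℂ))) ^ 2)
    (hrad : I.IsRadical) (hdim : ringKrullDim (MvPowerSeries (Fin n) ℂ ⧸ I) = 1)
    (f : MvPowerSeries (Fin n) ℂ) (hf0 : MvPowerSeries.constantCoeff f = 0)
    (hf2 : f ∉ (Ideal.span (Set.range (MvPowerSeries.X : Fin n → MvPowerSeries (Fin n) ℂ))) ^ 2)
    (hreg : ∀ g, f * g ∈ I → g ∈ I)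
    (B : Type) [CommRing B] [Algebra ℂ B] [Module.Finite ℂ B]
    (hB : Degenerates B (MvPowerSeries (Fin n) ℂ ⧸ (I ⊔ Ideal.span {f})))
    (hne : IsEmpty ((MvPowerSeries (Fin n) ℂ ⧸ (I ⊔ Ideal.span {f})) ≃ₐ[ℂ] B))
    (hd : Module.finrank ℂ (MvPowerSeries (Fin n) ℂ ⧸ (I ⊔ Ideal.span {f})) ≤
      Module.finrank ℂ (Derivation ℂ B B) + Module.finrank ℂ (⨅ i, LinearMap.ker
        (LinearMap.mulLeft ℂ (Ideal.Quotient.mk (I ⊔ Ideal.span {f}) (MvPowerSeries.X i))) :
          Submodule ℂ (MvPowerSeries (Fin n) ℂ ⧸ (I ⊔ Ideal.span {f})))) :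
    ∃ φ : I →ₗ[MvPowerSeries (Fin n) ℂ] (MvPowerSeries (Fin n) ℂ ⧸ I),
      ∀ D : Derivation ℂ (MvPowerSeries (Fin n) ℂ) (MvPowerSeries (Fin n) ℂ),
        ∃ g : I, φ g ≠ Ideal.Quotient.mk I (D (g : MvPowerSeries (Fin n) ℂ)) := by
  have hsoc : (⨅ i, LinearMap.ker (LinearMap.mulLeft ℂ
      (Ideal.Quotient.mk (I ⊔ Ideal.span {f}) (MvPowerSeries.X i))) :
      Submodule ℂ (MvPowerSeries (Fin n) ℂ ⧸ (I ⊔ Ideal.span {f}))) =
      (soc (I ⊔ Ideal.span {f})).restrictScalars ℂ := by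
    ext s
    rw [Submodule.mem_iInf, Submodule.restrictScalars_mem, mem_soc]
    constructor
    · intro hs x hx
      have hle : mm n ≤ LinearMap.ker (LinearMap.toSpanSingleton (P n)
          (P n ⧸ (I ⊔ Ideal.span {f})) s) := by
        rw [Ideal.span_le]
        rintro _ ⟨i, rfl⟩
        have h1 := hs i
        rw [LinearMap.mem_ker, LinearMap.mulLeft_apply, mul_mk_smul] at h1
        exact h1
      exact hle hx
    · intro hs i
      rw [LinearMap.mem_ker, LinearMap.mulLeft_apply, mul_mk_smul]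
      exact hs _ (X_mem_mm i)
  rw [hsoc] at hd
  have key : ¬ Rig I := main I hI hrad hdim f hf0 hf2 hreg B hB hne hd
  by_contra hcon
  push Not at hcon
  exact key hcon

end Pool.Agent.Results.MP_90188c_ag.Degenerations
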