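import Pool.Agent.W_MP_90188c_ag.Eul97

/-!
# Reduced curve singularities with `m^4` contained in a regular parameter are not rigid

`P = ℂ[[X_1, …, X_n]]` with `n ≥ 4`, `R = P/I` a reduced one-dimensional quotient of embedding
dimension `n`, `f` a regular parameter of `P` which is a nonzerodivisor on `R`.  If
`(X)^4 ≤ I + (f)`, then `T¹` of `R` is nonzero.
-/

set_option autoImplicit false

namespace Pool.Agent.Results.MP_90188c_ag.FourthPower

open Pool.Agent.W_MP_90188c_ag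

theorem result (n : ℕ) (hn : 4 ≤ n) (I : Ideal (MvPowerSeries (Fin n) ℂ))
    (hI : I ≤ (Ideal.span (Set.range (MvPowerSeries.X : Fin n → MvPowerSeries (Fin n) ℂ))) ^ 2)
    (hrad : I.IsRadical) (hdim : ringKrullDim (MvPowerSeries (Fin n) ℂ ⧸ I) = 1)
    (f : MvPowerSeries (Fin n) ℂ) (hf0 : MvPowerSeries.constantCoeff f = 0)
    (hf1 : ∃ i, MvPowerSeries.coeff (Finsupp.single i 1) f ≠ 0)
    (hreg : ∀ g, f * g ∈ I → g ∈ I)
    (h4 : (Ideal.span (Set.range (MvPowerSeries.X : Fin n → MvPowerSeries (Fin n) ℂ))) ^ 4 ≤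
      I ⊔ Ideal.span {f}) :
    ∃ φ : I →ₗ[MvPowerSeries (Fin n) ℂ] (MvPowerSeries (Fin n) ℂ ⧸ I),
      ∀ D : Derivation ℂ (MvPowerSeries (Fin n) ℂ) (MvPowerSeries (Fin n) ℂ),
        ∃ g : I, φ g ≠ Ideal.Quotient.mk I (D (g : MvPowerSeries (Fin n) ℂ)) := by
  obtain ⟨i0, hi0⟩ := hf1
  have key := soc_three_all hn I hI hrad hdim f hf0 i0 hi0 hreg h4
  unfold Rig at key
  push Not at key
  exact key

end Pool.Agent.Results.MP_90188c_ag.FourthPower
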