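import Pool.Agent.W_MP_90188c_ag.Final

/-!
# Reduced curve singularities with a hyperplane section of quasi-homogeneous type are not rigid

`P = ℂ[[X_1, …, X_n]]` with `n ≥ 4`, `R = P/I` a reduced one-dimensional quotient, `f` a regular
parameter of `P` which is a nonzerodivisor on `R`, and `A = P/(I + (f))` the hyperplane section.
If some `ℂ`-derivation `R → A` has values generating an ideal which contains the maximal ideal
of `A`, then `T¹` of `R` is nonzero.
-/

set_option autoImplicit false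

namespace Pool.Agent.Results.MP_90188c_ag.GradedSection

open Pool.Agent.W_MP_90188c_ag

theorem result (n : ℕ) (hn : 4 ≤ n) (I : Ideal (MvPowerSeries (Fin n) ℂ))
    (hI : I ≤ (Ideal.span (Set.range (MvPowerSeries.X : Fin n → MvPowerSeries (Fin n) ℂ))) ^ 2)
    (hrad : I.IsRadical) (hdim : ringKrullDim (MvPowerSeries (Fin n) ℂ ⧸ I) = 1)
    (f : MvPowerSeries (Fin n) ℂ) (hf0 : MvPowerSeries.constantCoeff f = 0)
    (hf1 : ∃ i, MvPowerSeries.coeff (Finsupp.single i 1) f ≠ 0)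
    (hreg : ∀ g, f * g ∈ I → g ∈ I)
    (E : Derivation ℂ (MvPowerSeries (Fin n) ℂ)
      (MvPowerSeries (Fin n) ℂ ⧸ (I ⊔ Ideal.span {f})))
    (hEI : ∀ g ∈ I, E g = 0)
    (hE : ∀ i, Ideal.Quotient.mk (I ⊔ Ideal.span {f}) (MvPowerSeries.X i) ∈
      Ideal.span (Set.range E)) :
    ∃ φ : I →ₗ[MvPowerSeries (Fin n) ℂ] (MvPowerSeries (Fin n) ℂ ⧸ I),
      ∀ D : Derivation ℂ (MvPowerSeries (Fin n) ℂ) (MvPowerSeries (Fin n) ℂ),
        ∃ g : I, φ g ≠ Ideal.Quotient.mk I (D (g : MvPowerSeries (Fin n) ℂ)) := by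
  obtain ⟨i0, hi0⟩ := hf1
  have h := not_rigid hn I hI hrad hdim f hf0 i0 hi0 hreg E hEI hE
  unfold Rig at h
  push Not at h
  exact h

end Pool.Agent.Results.MP_90188c_ag.GradedSection
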