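import Pool.Agent.W_MP_90188c_ag.Sat97

/-!
# Lower bounds for the multiplicity of a rigid reduced curve singularity

`P = ℂ[[X_1, …, X_n]]`, `R = P/I` a reduced one-dimensional quotient of embedding dimension `n ≥ 3`,
`f` a nonunit which is a nonzerodivisor on `R`, `A = P/(I + (f))`, `e` the dimension of `A` and `t`
the dimension of its socle.  If `e ≤ n t`, or `t = 1` and `e < n(n-1)/2 + 3`, or `n ≥ 4` and
`e ≤ 2 n`, then `T¹` of `R` is nonzero.
-/

set_option autoImplicit false

namespace Pool.Agent.Results.MP_90188c_ag.MultiplicityBound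

open Pool.Agent.W_MP_90188c_ag

theorem result (n : ℕ) (hn : 3 ≤ n) (I : Ideal (MvPowerSeries (Fin n) ℂ))
    (hI : I ≤ (Ideal.span (Set.range (MvPowerSeries.X : Fin n → MvPowerSeries (Fin n) ℂ))) ^ 2)
    (hrad : I.IsRadical) (hdim : ringKrullDim (MvPowerSeries (Fin n) ℂ ⧸ I) = 1)
    (f : MvPowerSeries (Fin n) ℂ) (hf0 : MvPowerSeries.constantCoeff f = 0)
    (hreg : ∀ g, f * g ∈ I → g ∈ I)
    (e t : ℕ)
    (he : e = Module.finrank ℂ (MvPowerSeries (Fin n) ℂ ⧸ (I ⊔ Ideal.span {f})))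
    (ht : t = Module.finrank ℂ (⨅ i, LinearMap.ker (LinearMap.mulLeft ℂ
      (Ideal.Quotient.mk (I ⊔ Ideal.span {f}) (MvPowerSeries.X i))) :
        Submodule ℂ (MvPowerSeries (Fin n) ℂ ⧸ (I ⊔ Ideal.span {f}))))
    (h : e ≤ n * t ∨ (t = 1 ∧ 2 * e < n * (n - 1) + 6) ∨ (4 ≤ n ∧ e ≤ 2 * n)) :
    ∃ φ : I →ₗ[MvPowerSeries (Fin n) ℂ] (MvPowerSeries (Fin n) ℂ ⧸ I),
      ∀ D : Derivation ℂ (MvPowerSeries (Fin n) ℂ) (MvPowerSeries (Fin n) ℂ),
        ∃ g : I, φ g ≠ Ideal.Quotient.mk I (D (g : MvPowerSeries (Fin n) ℂ)) := by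
  have key : ¬ Rig I := by
    intro hrig
    have hsoc : (⨅ i, LinearMap.ker (LinearMap.mulLeft ℂ
        (Ideal.Quotient.mk (I ⊔ Ideal.span {f}) (MvPowerSeries.X i))) :
        Submodule ℂ (MvPowerSeries (Fin n) ℂ ⧸ (I ⊔ Ideal.span {f}))) =
        (soc (I ⊔ Ideal.span {f})).restrictScalars ℂ := by
      ext s
      rw [Submodule.mem_iInf, Submodule.restrictScalars_mem, mem_soc]
      constructor
      · intro hs x hx
        have hle : mm n ≤ LinearMap.ker (LinearMap.toSpanSingleton (P n)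
            (P n ⧸ (I ⊔ Ideal.span {f})) s) := by
          rw [Ideal.span_le]
          rintro _ ⟨i, rfl⟩
          have h1 := hs i
          rw [LinearMap.mem_ker, LinearMap.mulLeft_apply, mul_mk_smul] at h1
          exact h1
        exact hle hx
      · intro hs i
        rw [LinearMap.mem_ker, LinearMap.mulLeft_apply, mul_mk_smul]
        exact hs _ (X_mem_mm i)
    rw [hsoc] at ht
    have ht' : t = Module.finrank ℂ (soc (I ⊔ Ideal.span {f})) := ht
    have h1 := type_bound_three hn I hI hrad hdim f hf0 hreg hrig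
    have h2 := gorenstein_bound_three hn I hI hrad hdim f hf0 hreg hrig
    rw [← ht', ← he] at h1
    rw [← ht', ← he] at h2
    obtain ⟨_, _, k, hk⟩ := artin_facts I hdim f hf0 hreg
    have hJm : I ⊔ Ideal.span {f} ≤ mm n := by
      refine sup_le (hI.trans (Ideal.pow_le_self two_ne_zero)) ?_
      rw [Ideal.span_singleton_le_iff_mem, mem_mm_iff]
      exact hf0
    have hJtop : I ⊔ Ideal.span {f} ≠ ⊤ := by
      intro h
      have h1 : (1 : P n) ∈ mm n := hJm (h ▸ Submodule.mem_top)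
      rw [mem_mm_iff, map_one] at h1
      exact one_ne_zero h1
    have h3 := soc_pos hk hJtop
    rw [← ht'] at h3
    rcases h with h | ⟨h, h'⟩ | ⟨h, h'⟩
    · omega
    · have := h2 h
      omega
    · rcases (by omega : t = 1 ∨ 2 ≤ t) with h4 | h4
      · have h5 := h2 h4
        obtain ⟨m, rfl⟩ : ∃ m, n = m + 4 := ⟨n - 4, by omega⟩
        have h6 : m + 4 - 1 = m + 3 := by omega
        rw [h6] at h5
        nlinarith
      · have h5 : n * 2 ≤ n * t := Nat.mul_le_mul_left n h4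
        omega
  unfold Rig at key
  push Not at key
  exact key

end Pool.Agent.Results.MP_90188c_ag.MultiplicityBound
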